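import Mathlib

/-!
# Points of growth of a sequence
-/

set_option autoImplicit false

namespace Pool.Agent.Helper19.T1

/-- Points of growth: if `δ w < δ w'` as soon as `w' ≥ F w`, then every window `[w, F w]`
contains a point `v` with `δ v < δ u` for ALL `u > v`. -/
theorem growthPoint (δ : ℕ → ℝ) (F : ℕ → ℝ) (h : ∀ w w' : ℕ, F w ≤ w' → δ w < δ w')
    (w : ℕ) (hF : (w : ℝ) ≤ F w) :
    ∃ v : ℕ, w ≤ v ∧ (v : ℝ) ≤ F w ∧ ∀ u : ℕ, v < u → δ v < δ u := by
  classical
  obtain ⟨T, hT⟩ := exists_nat_gt (F w)
  let S : Finset ℕ := (Finset.range T).filter fun u => δ u ≤ δ w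
  have hwS : w ∈ S := by
    simp only [S, Finset.mem_filter, Finset.mem_range, le_refl, and_true]
    exact_mod_cast lt_of_le_of_lt hF hT
  have hne : S.Nonempty := ⟨w, hwS⟩
  refine ⟨S.max' hne, S.le_max' w hwS, ?_, ?_⟩
  · by_contra hcon
    push Not at hcon
    have h1 := h w (S.max' hne) hcon.le
    have h2 := (Finset.mem_filter.mp (S.max'_mem hne)).2
    linarith
  · intro u hu
    have h2 := (Finset.mem_filter.mp (S.max'_mem hne)).2
    refine lt_of_le_of_lt h2 ?_
    by_contra hcon
    push Not at hcon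
    have huT : u < T := by
      by_contra hc
      push Not at hc
      have : F w ≤ (u : ℝ) := hT.le.trans (by exact_mod_cast hc)
      have := h w u this
      linarith
    have : u ∈ S := Finset.mem_filter.mpr ⟨Finset.mem_range.mpr huT, hcon⟩
    have := S.le_max' u this
    omega

end Pool.Agent.Helper19.T1
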