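import Mathlib
import Pool.Agent.Helper1.BalanceDefs
import Pool.Agent.Helper1.BalanceProof
import Pool.Agent.KSR.Final
import Pool.Agent.Helper19.T1.Growth

/-!
# Growth of the minimal balance constants from a polylogarithmic upper bound
-/

set_option autoImplicit false

open Pool.Agent.Helper1.Balance

namespace Pool.Agent.Helper19.T1

/-- The polylogarithmic upper bound, for all large widths. -/
def UpperLarge : Prop := ∃ (A w0 : ℕ), ∀ w : ℕ, w0 ≤ w →
  deltaW w ≤ 1 / 2 - 1 / (Real.log w) ^ A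

/-- The polylogarithmic upper bound, for all widths `≥ 3`. -/
def UpperAll (C : ℝ) : Prop := ∀ w : ℕ, 3 ≤ w →
  deltaW w ≤ 1 / 2 - 1 / (C * (Real.log w) ^ C)

theorem one_lt_log {w : ℕ} (hw : 3 ≤ w) : 1 < Real.log w := by
  have h1 : (3 : ℝ) ≤ w := by exact_mod_cast hw
  rw [Real.lt_log_iff_exp_lt (by linarith)]
  have := Real.exp_one_lt_d9
  linarith

theorem upperAll_mono {C C' : ℝ} (hC : 1 ≤ C) (hCC : C ≤ C') (h : UpperAll C) :
    UpperAll C' := by
  intro w hw
  refine (h w hw).trans ?_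
  have hl := one_lt_log hw
  have h1 : (Real.log w) ^ C ≤ (Real.log w) ^ C' :=
    Real.rpow_le_rpow_of_exponent_le hl.le hCC
  have h2 : 0 < (Real.log w) ^ C := Real.rpow_pos_of_pos (by linarith) _
  have h3 : C * (Real.log w) ^ C ≤ C' * (Real.log w) ^ C' :=
    mul_le_mul hCC h1 h2.le (by linarith)
  have h4 : 1 / (C' * (Real.log w) ^ C') ≤ 1 / (C * (Real.log w) ^ C) :=
    one_div_le_one_div_of_le (by positivity) h3
  linarith

theorem upperAll_of_large (h : UpperLarge) : ∃ C : ℝ, 1 ≤ C ∧ UpperAll C := by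
  obtain ⟨A, w0, h⟩ := h
  refine ⟨(A : ℝ) + 12 * w0 + 1, ?_, ?_⟩
  · have h1 : (0 : ℝ) ≤ A := Nat.cast_nonneg A
    have h2 : (0 : ℝ) ≤ w0 := Nat.cast_nonneg w0
    linarith
  intro w hw
  have hA : (0 : ℝ) ≤ A := Nat.cast_nonneg A
  have hw0 : (0 : ℝ) ≤ w0 := Nat.cast_nonneg w0
  have hl := one_lt_log hw
  have hp : (1 : ℝ) ≤ (Real.log w) ^ ((A : ℝ) + 12 * w0 + 1) :=
    Real.one_le_rpow hl.le (by linarith)
  rcases le_or_gt w0 w with hc | hc
  · refine (h w hc).trans ?_
    have h1 : (Real.log w) ^ A ≤ (Real.log w) ^ ((A : ℝ) + 12 * w0 + 1) := by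
      rw [← Real.rpow_natCast]
      exact Real.rpow_le_rpow_of_exponent_le hl.le (by linarith)
    have h2 : 0 < (Real.log w) ^ A := pow_pos (by linarith) _
    have h3 : (Real.log w) ^ A ≤ ((A : ℝ) + 12 * w0 + 1) *
        (Real.log w) ^ ((A : ℝ) + 12 * w0 + 1) := by
      nlinarith
    have h4 := one_div_le_one_div_of_le h2 h3
    linarith
  · refine (main w (by omega)).trans ?_
    have h1 : (3 : ℝ) ≤ w := by exact_mod_cast hw
    have h2 : (w : ℝ) ≤ w0 := by exact_mod_cast hc.le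
    have h3 : 12 * ((w : ℝ) - 1) ≤ ((A : ℝ) + 12 * w0 + 1) *
        (Real.log w) ^ ((A : ℝ) + 12 * w0 + 1) := by
      nlinarith
    have h4 := one_div_le_one_div_of_le (by linarith) h3
    linarith

/-- the value at `w` and the threshold -/
theorem growth_of_upper {C : ℝ} (hC : 1 ≤ C) (h : UpperAll C) :
    ∃ D : ℝ, 1 ≤ D ∧ ∀ w w' : ℕ,
      Real.exp (D * (Real.log ((w : ℝ) + 3)) ^ D) ≤ w' → deltaW w < deltaW w' := by
  obtain ⟨B, hB, hr⟩ := Pool.Agent.KSR.deltaW_rate
  have hC0 : 0 < C := by linarith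
  refine ⟨B * (24 * C) ^ 5 + 5 * C, by nlinarith [pow_pos (mul_pos (by norm_num : (0:ℝ) < 24) hC0) 5], ?_⟩
  intro w w' hw'
  obtain ⟨l, hl⟩ : ∃ l : ℝ, l = Real.log ((w : ℝ) + 3) := ⟨_, rfl⟩
  rw [← hl] at hw'
  have hwR : (0 : ℝ) ≤ w := Nat.cast_nonneg w
  have hl1 : 1 < l := by
    rw [hl, Real.lt_log_iff_exp_lt (by linarith)]
    have := Real.exp_one_lt_d9
    linarith
  have hl0 : 0 < l := by linarith
  have hlC : 1 ≤ l ^ C := Real.one_le_rpow hl1.le (by linarith)
  -- the small number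
  obtain ⟨ε, hε⟩ : ∃ ε : ℝ, ε = 1 / (24 * C * l ^ C) := ⟨_, rfl⟩
  have hpos : 0 < 24 * C * l ^ C := by positivity
  have hge : 24 ≤ 24 * C * l ^ C := by nlinarith
  have hε0 : 0 < ε := by rw [hε]; positivity
  have hε4 : ε ≤ 1 / 24 := by
    rw [hε]; exact one_div_le_one_div_of_le (by norm_num) hge
  -- upper bound at `w`
  have hup : deltaW w ≤ 1 / 2 - 2 * ε := by
    rcases lt_or_ge w 2 with hw | hw
    · have := Pool.Agent.KSR.deltaW_le_zero hw
      linarith
    · rcases lt_or_ge w 3 with hw3 | hw3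
      · have hw2 : w = 2 := by omega
        subst hw2
        have := main 2 le_rfl
        norm_num at this
        linarith
      · refine (h w hw3).trans ?_
        have h1 := one_lt_log hw3
        have h2 : Real.log w ≤ l := by
          rw [hl]
          have h3 : (3 : ℝ) ≤ w := by exact_mod_cast hw3
          exact Real.log_le_log (by linarith) (by linarith)
        have h3 : (Real.log w) ^ C ≤ l ^ C := Real.rpow_le_rpow (by linarith) h2 (by linarith)
        have h4 : 0 < (Real.log w) ^ C := Real.rpow_pos_of_pos (by linarith) _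
        have h5 : 1 / (C * l ^ C) ≤ 1 / (C * (Real.log w) ^ C) :=
          one_div_le_one_div_of_le (by positivity) (mul_le_mul_of_nonneg_left h3 hC0.le)
        have h6 : 2 * ε ≤ 1 / (C * l ^ C) := by
          rw [hε, mul_one_div, div_le_div_iff₀ hpos (by positivity)]
          nlinarith
        linarith
  have hlow : 1 / 2 - ε ≤ deltaW w' := by
    refine hr ε hε0 (by linarith) w' (lt_of_lt_of_le ?_ hw')
    have hb : 1 / ε = 24 * C * l ^ C := by rw [hε]; field_simp
    rw [hb]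
    have hX : 0 < 24 * C * l ^ C := hpos
    rw [← Real.log_lt_log_iff (Real.rpow_pos_of_pos hX _) (Real.exp_pos _),
      Real.log_rpow hX, Real.log_exp]
    have h1 : B / ε ^ 4 = B * (24 * C * l ^ C) ^ 4 := by
      rw [hε]; field_simp
    rw [h1]
    have h2 : Real.log (24 * C * l ^ C) < 24 * C * l ^ C := by
      have := Real.log_lt_sub_one_of_pos hX (by linarith)
      linarith
    have h3 : B * (24 * C * l ^ C) ^ 4 * Real.log (24 * C * l ^ C) <
        B * (24 * C * l ^ C) ^ 4 * (24 * C * l ^ C) :=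
      mul_lt_mul_of_pos_left h2 (by positivity)
    have h4 : B * (24 * C * l ^ C) ^ 4 * (24 * C * l ^ C) = B * (24 * C) ^ 5 * (l ^ C) ^ 5 := by
      ring
    have h5 : (l ^ C) ^ 5 = l ^ (5 * C) := by
      rw [← Real.rpow_natCast, ← Real.rpow_mul hl0.le]
      congr 1
      push_cast
      ring
    have h6 : l ^ (5 * C) ≤ l ^ (B * (24 * C) ^ 5 + 5 * C) := by
      apply Real.rpow_le_rpow_of_exponent_le hl1.le
      have : 0 ≤ B * (24 * C) ^ 5 := by positivity
      linarith
    have h7 : 0 < l ^ (B * (24 * C) ^ 5 + 5 * C) := Real.rpow_pos_of_pos hl0 _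
    have h8 : 0 < B * (24 * C) ^ 5 := by positivity
    rw [h4, h5] at h3
    refine lt_of_lt_of_le h3 ?_
    nlinarith
  linarith

/-- points of growth in every quasi-polynomial window -/
theorem growthPoint_of_upper {D : ℝ} (hD : 1 ≤ D) (h : ∀ w w' : ℕ,
      Real.exp (D * (Real.log ((w : ℝ) + 3)) ^ D) ≤ w' → deltaW w < deltaW w') (w : ℕ) :
    ∃ v : ℕ, w ≤ v ∧ (v : ℝ) ≤ Real.exp (D * (Real.log ((w : ℝ) + 3)) ^ D) ∧
      ∀ u : ℕ, v < u → deltaW v < deltaW u := by
  refine growthPoint deltaW (fun w : ℕ => Real.exp (D * (Real.log ((w : ℝ) + 3)) ^ D)) h w ?_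
  have hwR : (0 : ℝ) ≤ w := Nat.cast_nonneg w
  have hl1 : 1 < Real.log ((w : ℝ) + 3) := by
    rw [Real.lt_log_iff_exp_lt (by linarith)]
    have := Real.exp_one_lt_d9
    linarith
  have h1 : Real.log ((w : ℝ) + 3) ≤ (Real.log ((w : ℝ) + 3)) ^ D := by
    have := Real.rpow_le_rpow_of_exponent_le hl1.le hD
    rwa [Real.rpow_one] at this
  have h2 : Real.log ((w : ℝ) + 3) ≤ D * (Real.log ((w : ℝ) + 3)) ^ D := by nlinarith
  have h3 := Real.exp_le_exp.2 h2
  rw [Real.exp_log (by linarith)] at h3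
  linarith

/-- monotonicity of the threshold in the constant -/
theorem thr_mono {D D' : ℝ} (hD : 1 ≤ D) (hDD : D ≤ D') (w : ℕ) :
    Real.exp (D * (Real.log ((w : ℝ) + 3)) ^ D) ≤
      Real.exp (D' * (Real.log ((w : ℝ) + 3)) ^ D') := by
  have hwR : (0 : ℝ) ≤ w := Nat.cast_nonneg w
  have hl1 : 1 < Real.log ((w : ℝ) + 3) := by
    rw [Real.lt_log_iff_exp_lt (by linarith)]
    have := Real.exp_one_lt_d9
    linarith
  apply Real.exp_le_exp.2
  have h1 := Real.rpow_le_rpow_of_exponent_le hl1.le hDD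
  have h2 : 0 < (Real.log ((w : ℝ) + 3)) ^ D := Real.rpow_pos_of_pos (by linarith) _
  exact mul_le_mul hDD h1 h2.le (by linarith)

end Pool.Agent.Helper19.T1
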