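import Mathlib
import Pool.Agent.Helper1.BalanceDefs
import Pool.Agent.Helper1.BalanceProof
import Pool.Agent.KSR.Final
import Pool.Agent.Helper19.T1.Corollary

/-!
# From the construction to the upper bound for all large widths
-/

set_option autoImplicit false

open Pool.Agent.Helper1.Balance

namespace Pool.Agent.Helper19.T1

/-- What the construction gives: `N` species with `2 K` satellites each and `s` extra elements,
width exactly `2 K N + s`. -/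
def Construct : Prop := ∃ A L0 : ℕ, ∀ L : ℕ, L0 ≤ L → ∃ K : ℕ, 1 ≤ K ∧ K ≤ L ^ A ∧
  ∀ N s : ℕ, 2 ^ (L / 2) ≤ N → N ≤ 2 ^ L → s < 2 * K →
    deltaW (2 * K * N + s) ≤ 1 / 2 - 1 / (L : ℝ) ^ A

theorem pow_lt_two_pow (A : ℕ) : ∃ L1 : ℕ, ∀ L : ℕ, L1 ≤ L →
    2 * L ^ A * 2 ^ (L / 2) ≤ 2 ^ L := by
  -- `L ^ A / 2 ^ (L / 2) → 0`
  have h1 : Filter.Tendsto (fun m : ℕ => ((m : ℝ)) ^ A / (2 : ℝ) ^ m) Filter.atTop (nhds 0) := by
    have := tendsto_pow_const_div_const_pow_of_one_lt A (r := (2 : ℝ)) (by norm_num)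
    exact this
  have h2 : ∀ᶠ m : ℕ in Filter.atTop, ((m : ℝ)) ^ A / (2 : ℝ) ^ m < 1 / (2 * 4 ^ A) :=
    h1.eventually_lt_const (by positivity)
  obtain ⟨m0, hm0⟩ := Filter.eventually_atTop.1 h2
  refine ⟨2 * m0 + 2, ?_⟩
  intro L hL
  obtain ⟨m, hm⟩ : ∃ m, m = L / 2 := ⟨_, rfl⟩
  have hmm : m0 ≤ m := by omega
  have hm1 : 1 ≤ m := by omega
  have hL2 : L ≤ 4 * m := by omega
  have hL3 : 2 * m ≤ L := by omega
  have h3 := hm0 m hmm
  rw [div_lt_div_iff₀ (by positivity) (by positivity), one_mul] at h3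
  have h4 : (2 : ℝ) * (4 * (m : ℝ)) ^ A ≤ 2 ^ m := by
    rw [mul_pow]
    nlinarith
  have h5 : 2 * (4 * m) ^ A ≤ 2 ^ m := by exact_mod_cast h4
  have h6 : 2 * L ^ A ≤ 2 ^ m :=
    (Nat.mul_le_mul_left 2 (Nat.pow_le_pow_left hL2 A)).trans h5
  rw [← hm]
  calc 2 * L ^ A * 2 ^ m ≤ 2 ^ m * 2 ^ m := Nat.mul_le_mul_right _ h6
    _ = 2 ^ (2 * m) := by rw [← pow_add]; congr 1; omega
    _ ≤ 2 ^ L := Nat.pow_le_pow_right (by norm_num) hL3

theorem upperLarge_of_construct (h : Construct) : UpperLarge := by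
  obtain ⟨A, L0, h⟩ := h
  obtain ⟨L1, hL1⟩ := pow_lt_two_pow A
  refine ⟨2 * A, 2 ^ (L0 + L1 + 4), ?_⟩
  intro w hw
  have hw0 : w ≠ 0 := by
    have : 0 < 2 ^ (L0 + L1 + 4) := by positivity
    omega
  obtain ⟨L, hL⟩ : ∃ L, L = Nat.log 2 w := ⟨_, rfl⟩
  have hLb : L0 + L1 + 4 ≤ L := by
    rw [hL]
    exact Nat.le_log_of_pow_le (by norm_num) hw
  have hwl : 2 ^ L ≤ w := by rw [hL]; exact Nat.pow_log_le_self 2 hw0
  have hwu : w < 2 ^ (L + 1) := by rw [hL]; exact Nat.lt_pow_succ_log_self (by norm_num) w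
  obtain ⟨K, hK1, hK2, hK⟩ := h L (by omega)
  have h2K : 0 < 2 * K := by omega
  have hN1 : 2 ^ (L / 2) ≤ w / (2 * K) := by
    rw [Nat.le_div_iff_mul_le h2K]
    calc 2 ^ (L / 2) * (2 * K) ≤ 2 ^ (L / 2) * (2 * L ^ A) :=
          Nat.mul_le_mul_left _ (Nat.mul_le_mul_left 2 hK2)
      _ = 2 * L ^ A * 2 ^ (L / 2) := by ring
      _ ≤ 2 ^ L := hL1 L (by omega)
      _ ≤ w := hwl
  have hN2 : w / (2 * K) ≤ 2 ^ L := by
    have h1 : w / (2 * K) ≤ w / 2 := Nat.div_le_div_left (by omega) (by norm_num)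
    have h2 : w / 2 < 2 ^ L := by
      rw [Nat.div_lt_iff_lt_mul (by norm_num)]
      rw [pow_succ] at hwu
      exact hwu
    omega
  have hr := hK (w / (2 * K)) (w % (2 * K)) hN1 hN2 (Nat.mod_lt _ h2K)
  rw [Nat.div_add_mod] at hr
  refine hr.trans ?_
  -- compare `L` with `log w`
  have hLpos : (0 : ℝ) < L := by
    have : 0 < L := by omega
    exact_mod_cast this
  have hwR : (0 : ℝ) < w := by
    have : 0 < w := Nat.pos_of_ne_zero hw0
    exact_mod_cast this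
  have hlog : (L : ℝ) * Real.log 2 ≤ Real.log w := by
    rw [← Real.log_pow]
    apply Real.log_le_log (by positivity)
    exact_mod_cast hwl
  have hlog2 := Real.log_two_gt_d9
  have hLlog : (L : ℝ) ≤ 2 * Real.log w := by nlinarith
  have hlw : 2 ≤ Real.log w := by
    have h1 : (4 : ℝ) ≤ L := by
      have : 4 ≤ L := by omega
      exact_mod_cast this
    nlinarith
  have h1 : (L : ℝ) ^ A ≤ (Real.log w) ^ (2 * A) := by
    rw [pow_mul]
    apply pow_le_pow_left₀ hLpos.le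
    nlinarith
  have h2 : 1 / (Real.log w) ^ (2 * A) ≤ 1 / (L : ℝ) ^ A :=
    one_div_le_one_div_of_le (by positivity) h1
  linarith

end Pool.Agent.Helper19.T1
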