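import Mathlib
import Pool.Agent.Helper1.BalanceDefs
import Pool.Agent.KSR.Final
import Pool.Agent.Helper11.KS.Structure
import Pool.Agent.Helper19.T1.Select

/-!
# Assembly: the order of the Kahn-Saks rate and the growth of the minimal balance constants
-/

set_option autoImplicit false

open Pool.Agent.Helper1.Balance

namespace Pool.Agent.Helper19.T1

/-- All the consequences of the construction and of the Kahn-Saks theorem with a rate. -/
theorem all_of_construct (hcon : Construct) : ∃ C : ℝ, 1 ≤ C ∧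
    (∀ ε : ℝ, 0 < ε → ε ≤ 1 / 2 → ∀ (n : ℕ) (r : Fin n → Fin n → Prop), IsPoset r →
      ∀ s : Finset (Fin n), IsAnti r s → (1 / ε) ^ (C / ε ^ 4) < s.card →
        ∃ x y : Fin n, ¬ r x y ∧ ¬ r y x ∧ |prob r x y - 1 / 2| < ε) ∧
    (∀ ε : ℝ, 0 < ε → ε ≤ 1 / 2 → ∀ (n : ℕ) (r : Fin n → Fin n → Prop), IsPoset r →
      balance r ≤ 1 / 2 - ε → ∀ x : Fin n,
        (Nat.card {y : Fin n // ¬ r x y ∧ ¬ r y x} : ℝ) ≤ (1 / ε) ^ (C / ε ^ 4)) ∧
    (∀ w : ℕ, 16 ≤ w →
      1 / 2 - C * (Real.log (Real.log w) / Real.log w) ^ (1 / 4 : ℝ) ≤ deltaW w) ∧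
    (∀ w : ℕ, 3 ≤ w → deltaW w ≤ 1 / 2 - 1 / (C * (Real.log w) ^ C)) ∧
    (∀ w w' : ℕ, Real.exp (C * (Real.log ((w : ℝ) + 3)) ^ C) ≤ w' →
      deltaW w < deltaW w') ∧
    (∀ w : ℕ, ∃ v : ℕ, w ≤ v ∧ (v : ℝ) ≤ Real.exp (C * (Real.log ((w : ℝ) + 3)) ^ C) ∧
      ∀ u : ℕ, v < u → deltaW v < deltaW u) ∧
    Filter.Tendsto deltaW Filter.atTop (nhds (1 / 2)) := by
  obtain ⟨C1, h11, h1⟩ := Pool.Agent.KSR.unb_bound
  obtain ⟨C3, h31, h3⟩ := Pool.Agent.KSR.deltaW_loglog
  obtain ⟨C4, h41, h4⟩ := upperAll_of_large (upperLarge_of_construct hcon)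
  obtain ⟨C5, h51, h5⟩ := growth_of_upper h41 h4
  obtain ⟨C, hC⟩ : ∃ C : ℝ, C = C1 + C3 + C4 + C5 := ⟨_, rfl⟩
  have key : ∀ ε : ℝ, 0 < ε → ε ≤ 1 / 2 →
      (1 / ε) ^ (C1 / ε ^ 4) ≤ (1 / ε) ^ (C / ε ^ 4) := by
    intro ε hε hε2
    have h6 : 1 ≤ 1 / ε := by
      rw [le_div_iff₀ hε]; linarith
    apply Real.rpow_le_rpow_of_exponent_le h6
    apply div_le_div_of_nonneg_right _ (by positivity)
    linarith
  have h5' : ∀ w w' : ℕ, Real.exp (C * (Real.log ((w : ℝ) + 3)) ^ C) ≤ w' →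
      deltaW w < deltaW w' := by
    intro w w' hw'
    exact h5 w w' ((thr_mono h51 (by linarith) w).trans hw')
  refine ⟨C, by linarith, ?_, ?_, ?_, upperAll_mono h41 (by linarith) h4, h5',
    growthPoint_of_upper (by linarith) h5', Pool.Agent.Helper8.KS.deltaW_tendsto⟩
  · intro ε hε hε2 n r hr s hs hc
    by_contra hcon
    push Not at hcon
    have hU : Pool.Agent.Helper8.KS.Unb ε r := by
      intro x y hxy
      by_cases h : r x y ∨ r y x
      · exact Pool.Agent.Helper11.Chain.unb_of_rel r hr h hxy hε2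
      · push Not at h
        exact hcon x y h.1 h.2
    have h6 := (h1 ε hε hε2 r hr hU).1 s hs
    have h7 := key ε hε hε2
    linarith
  · intro ε hε hε2 n r hr hb x
    have hU := Pool.Agent.Helper11.KSStruct.unb_of_balance r hr hε hb
    rw [min_eq_left hε2] at hU
    exact ((h1 ε hε hε2 r hr hU).2 x).trans (key ε hε hε2)
  · intro w hw
    refine le_trans ?_ (h3 w hw)
    have h6 : (0 : ℝ) ≤ (Real.log (Real.log w) / Real.log w) ^ (1 / 4 : ℝ) := by
      apply Real.rpow_nonneg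
      have hwR : (16 : ℝ) ≤ w := by exact_mod_cast hw
      have h8 : Real.exp 1 ≤ Real.log w := by
        have h9 : Real.log 16 ≤ Real.log w := Real.log_le_log (by norm_num) hwR
        have h10 : Real.log 16 = 4 * Real.log 2 := by
          rw [show (16 : ℝ) = 2 ^ 4 by norm_num, Real.log_pow]; norm_num
        have h11 := Real.log_two_gt_d9
        have h12 := Real.exp_one_lt_d9
        linarith
      have h9 : 0 < Real.log w := lt_of_lt_of_le (Real.exp_pos 1) h8
      have h10 : 0 ≤ Real.log (Real.log w) := by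
        apply Real.log_nonneg
        have := Real.add_one_le_exp (1 : ℝ)
        linarith
      exact div_nonneg h10 h9.le
    have h7 : C3 * (Real.log (Real.log w) / Real.log w) ^ (1 / 4 : ℝ) ≤
        C * (Real.log (Real.log w) / Real.log w) ^ (1 / 4 : ℝ) :=
      mul_le_mul_of_nonneg_right (by linarith) h6
    linarith

end Pool.Agent.Helper19.T1
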