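import Mathlib

/-!
# Discrete intermediate value theorem
-/

set_option autoImplicit false

namespace Pool.Agent.Helper19.T1

/-- discrete intermediate value theorem -/
theorem nat_ivt (f : ℕ → ℕ) (hf : ∀ s, f (s + 1) ≤ f s + 1) (w m : ℕ) (h0 : f 0 ≤ w)
    (hm : w ≤ f m) : ∃ s ≤ m, f s = w := by
  induction m with
  | zero => exact ⟨0, le_rfl, le_antisymm h0 hm⟩
  | succ m ih =>
    rcases Nat.lt_or_ge (f m) w with h | h
    · refine ⟨m + 1, le_rfl, ?_⟩
      have := hf m
      omega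
    · obtain ⟨s, hs, hs'⟩ := ih h
      exact ⟨s, hs.trans (Nat.le_succ m), hs'⟩

end Pool.Agent.Helper19.T1
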